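import Pool.Graph.R_seed8.Y208.BH.Final
import Pool.Agent.H318.WP.Grp

/-!
# MP_24fec0_al: the ring of a finitely generated group with computable word problem

The assembly `Y208.BH.t_RING` of the library once more, for arbitrary sets of relators.
-/

set_option autoImplicit false

open scoped TensorProduct

namespace Pool.Agent.H318.WP

open Pool.SF Y208.LQ Y208.BH

theorem simple_tensor_op (A : Type) [Ring A] [Algebra (ZMod 2) A] [IsSimpleRing A]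
    [Algebra.IsCentral (ZMod 2) A] : IsSimpleRing (A ⊗[ZMod 2] Aᵐᵒᵖ) :=
  Pool.Agent.Helper18.Br.isSimple_tensor

/-- The ring and the module: every finitely generated group with computable word problem is a
subgroup of the group of units of a suitable ring. -/
theorem ring_set (hFPO : S_FPO) (hBIM : S_BIM) (hJ1a : S_J1a) (hJ1b : S_J1b)
    (hSIMP : S_SIMP) (hTFP : S_TFP) (hCEN : S_CEN) (n : ℕ) (rels : Set (FreeGroup (Fin n)))
    (hwp : ComputablePred (fun w : List (Fin n × Bool) =>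
      PresentedGroup.mk rels (FreeGroup.mk w) = 1)) :
    ∃ (R V : Type) (_ : Ring R) (_ : Algebra (ZMod 2) R) (_ : AddCommGroup V) (_ : Module R V)
      (v0 : V), FPA R ∧ SwR R ∧ Good R V v0 ∧ IsSimpleRing R ∧
      ∃ θ : PresentedGroup rels →* Rˣ, Function.Injective θ := by
  obtain ⟨m, a, hgen, hrec⟩ := grp_set n rels hwp
  obtain ⟨rel, hrel, hs, hc, hO, φ, hφ⟩ := partI a hgen hrec
  obtain ⟨S, _, _, hSfp, hSs, hSc, ψ, hψ⟩ := hCEN (ZMod 2) (GD m) rel hrel hs hc hO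
  obtain ⟨hBfp, ⟨w⟩⟩ := hJ1a (ZMod 2)
  have : Nontrivial (BA (ZMod 2)) := hJ1b (ZMod 2)
  obtain ⟨hBs, hBc⟩ := hSIMP (ZMod 2) (BA (ZMod 2)) w
  have : Algebra.IsCentral (ZMod 2) (BA (ZMod 2)) := isCentral_of hBc
  have : Algebra.IsCentral (ZMod 2) S := isCentral_of hSc
  have hRs : IsSimpleRing (BA (ZMod 2) ⊗[ZMod 2] S) := Pool.Agent.Helper18.Br.isSimple_tensor
  have hRc : Algebra.IsCentral (ZMod 2) (BA (ZMod 2) ⊗[ZMod 2] S) :=
    Pool.Agent.Helper18.Br.isCentral_tensor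
  have hAfp := hTFP (ZMod 2) (BA (ZMod 2)) S hBfp hSfp
  obtain ⟨wB⟩ := sw_of_SwA w
  obtain ⟨wA⟩ := sw_tensor (S := S) wB
  obtain ⟨wR⟩ := sw_tensor (S := (BA (ZMod 2) ⊗[ZMod 2] S)ᵐᵒᵖ) wA
  obtain ⟨hmod, hgood⟩ := hBIM (BA (ZMod 2) ⊗[ZMod 2] S) hRs (fun z hz => by
    have h7 : z ∈ Subalgebra.center (ZMod 2) (BA (ZMod 2) ⊗[ZMod 2] S) :=
      Subalgebra.mem_center_iff.2 (fun c => (hz c).symm)
    obtain ⟨r, hr⟩ := Algebra.mem_bot.1 (hRc.out h7)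
    exact ⟨r, hr⟩) (hFPO.1 _ hAfp)
  have hSnt : Nontrivial S := inferInstance
  have hAnt : Nontrivial (BA (ZMod 2) ⊗[ZMod 2] S) := inferInstance
  have hRnt : Nontrivial ((BA (ZMod 2) ⊗[ZMod 2] S) ⊗[ZMod 2] (BA (ZMod 2) ⊗[ZMod 2] S)ᵐᵒᵖ) :=
    Algebra.TensorProduct.nontrivial_of_algebraMap_injective_of_flat_left (ZMod 2) _ _
      (FaithfulSMul.algebraMap_injective (ZMod 2) _)
  let χ1 : S →ₐ[ZMod 2] BA (ZMod 2) ⊗[ZMod 2] S := Algebra.TensorProduct.includeRight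
  let χ2 : BA (ZMod 2) ⊗[ZMod 2] S →ₐ[ZMod 2]
      (BA (ZMod 2) ⊗[ZMod 2] S) ⊗[ZMod 2] (BA (ZMod 2) ⊗[ZMod 2] S)ᵐᵒᵖ :=
    Algebra.TensorProduct.includeLeft
  have hχ1 : Function.Injective χ1 := RingHom.injective χ1.toRingHom
  have hχ2 : Function.Injective χ2 :=
    Algebra.TensorProduct.includeLeft_injective (FaithfulSMul.algebraMap_injective (ZMod 2) _)
  let Θ := χ2.comp (χ1.comp (ψ.comp φ))
  have hΘ : Function.Injective Θ := hχ2.comp (hχ1.comp (hψ.comp hφ))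
  let θ0 : PresentedGroup rels →*
      ((BA (ZMod 2) ⊗[ZMod 2] S) ⊗[ZMod 2] (BA (ZMod 2) ⊗[ZMod 2] S)ᵐᵒᵖ) :=
    (Θ : _ →* _).comp (MonoidAlgebra.of (ZMod 2) (PresentedGroup rels))
  refine ⟨_, BA (ZMod 2) ⊗[ZMod 2] S, inferInstance, inferInstance, inferInstance, hmod, 1,
    hFPO.1 _ (hTFP _ _ _ hAfp (hFPO.2 _ hAfp)), swR_of_Sw wR, hgood, simple_tensor_op (BA (ZMod 2) ⊗[ZMod 2] S), θ0.toHomUnits, ?_⟩
  intro g g' h
  have h1 : θ0 g = θ0 g' := by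
    have := congrArg Units.val h
    exact this
  exact MonoidAlgebra.of_injective (hΘ h1)

end Pool.Agent.H318.WP
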