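import Pool.Graph.R_seed8.H665Simp.P_der_iff
import Pool.Graph.R_seed8.H665Simp.P_pres_transfer

/-!
# MP_24fec0_al: semirecursive predicates on words of finitely presented groups
-/

set_option autoImplicit false

namespace Pool.Agent.H318.WP

open Pool.Agent.H665Simp

/-! ### projections of primitive recursive relations -/

section SR

variable {α β : Type} [Primcodable α] [Primcodable β]

/-- projections of primitive recursive relations -/
def SR (A : α → Prop) : Prop :=
  ∃ R : α → ℕ → Prop, PrimrecPred (fun p : α × ℕ => R p.1 p.2) ∧ ∀ a, A a ↔ ∃ y, R a y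

theorem SR.re {A : α → Prop} (h : SR A) : REPred A := by
  classical
  obtain ⟨R, hR', hA⟩ := h
  have hR : Primrec (fun p : α × ℕ => decide (R p.1 p.2)) := hR'.decide
  have h1 : Partrec (fun a : α => Nat.rfind (fun y => Part.some (decide (R a y)))) :=
    Partrec.rfind (hR.to_comp.partrec.to₂)
  have h2 := h1.dom_re
  refine h2.of_eq fun a => ?_
  rw [hA]
  refine (Nat.rfind_dom (p := fun y => Part.some (decide (R a y)))).trans ?_
  constructor
  · rintro ⟨n, hn, -⟩
    rw [Part.mem_some_iff] at hn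
    exact ⟨n, of_decide_eq_true hn.symm⟩
  · rintro ⟨n, hn⟩
    exact ⟨n, by rw [Part.mem_some_iff]; exact (decide_eq_true hn).symm, fun _ => trivial⟩

theorem SR.comp {A : α → Prop} (h : SR A) {f : β → α} (hf : Primrec f) :
    SR (fun b => A (f b)) := by
  obtain ⟨R, hR, hA⟩ := h
  refine ⟨fun b y => R (f b) y, ?_, fun b => hA (f b)⟩
  exact PrimrecPred.comp hR (Primrec.pair (hf.comp Primrec.fst) Primrec.snd)

theorem SR.of_iff {A B : α → Prop} (h : SR A) (hAB : ∀ a, B a ↔ A a) : SR B := by
  obtain ⟨R, hR, hA⟩ := h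
  exact ⟨R, hR, fun a => (hAB a).trans (hA a)⟩

theorem SR.ex {A : α × β → Prop} (b0 : β) (h : SR A) : SR (fun a => ∃ b, A (a, b)) := by
  obtain ⟨R, hR, hA⟩ := h
  refine ⟨fun a y => R (a, ((Encodable.decode y.unpair.1 : Option β)).getD b0) y.unpair.2,
    ?_, fun a => ?_⟩
  · have h1 : Primrec fun p : α × ℕ => ((Encodable.decode p.2.unpair.1 : Option β)).getD b0 :=
      Primrec.option_getD.comp (Primrec.decode.comp (Primrec.fst.comp (Primrec.unpair.comp
        Primrec.snd))) (Primrec.const b0)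
    exact PrimrecPred.comp hR (Primrec.pair (Primrec.pair Primrec.fst h1)
      (Primrec.snd.comp (Primrec.unpair.comp Primrec.snd)))
  · constructor
    · rintro ⟨b, hb⟩
      obtain ⟨y, hy⟩ := (hA _).1 hb
      refine ⟨Nat.pair (Encodable.encode b) y, ?_⟩
      dsimp only
      rw [Nat.unpair_pair]
      dsimp only
      rw [Encodable.encodek]
      exact hy
    · rintro ⟨y, hy⟩
      exact ⟨_, (hA _).2 ⟨_, hy⟩⟩

theorem SR.or {A B : α → Prop} (hA : SR A) (hB : SR B) : SR (fun a => A a ∨ B a) := by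
  obtain ⟨R, hR, hA⟩ := hA
  obtain ⟨T, hT, hB⟩ := hB
  refine ⟨fun a y => R a y ∨ T a y, PrimrecPred.or hR hT, fun a => ?_⟩
  dsimp only
  rw [hA, hB, exists_or]

theorem SR.false : SR (fun _ : α => False) := by
  refine ⟨fun _ _ => False, ?_, fun a => by simp⟩
  exact ⟨fun _ => instDecidableFalse, Primrec.const Bool.false⟩

theorem SR.exList {ι : Type} (l : List ι) (A : ι → α → Prop) (h : ∀ i, SR (A i)) :
    SR (fun a => ∃ i ∈ l, A i a) := by
  induction l with
  | nil => exact SR.false.of_iff fun a => by simp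
  | cons i l ih => exact ((h i).or ih).of_iff fun a => by simp

end SR

/-! ### words -/

theorem sr_der : SR (fun p : ((ℕ × List Wd) × Wd) × Der => IsDer p.1.1.1 p.1.1.2 p.1.2 p.2) := by
  have h1 : Primrec (fun q : (((ℕ × List Wd) × Wd) × Der) × ℕ => (q.1.1.1, (q.1.1.2, q.1.2))) :=
    Primrec.pair (Primrec.fst.comp (Primrec.fst.comp Primrec.fst))
      (Primrec.pair (Primrec.snd.comp (Primrec.fst.comp Primrec.fst))
        (Primrec.snd.comp Primrec.fst))
  have h2 := PrimrecPred.comp pp_isDer h1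
  exact ⟨fun p _ => IsDer p.1.1.1 p.1.1.2 p.1.2 p.2, h2,
    fun p => ⟨fun h => ⟨0, h⟩, fun ⟨_, h⟩ => h⟩⟩

/-- membership in the normal closure of the relators -/
theorem sr_nc : SR (fun p : (ℕ × List Wd) × Wd =>
    FreeGroup.mk p.2 ∈ Subgroup.normalClosure (relsN p.1.1 p.1.2)) :=
  (SR.ex ([] : Der) sr_der).of_iff fun p => der_iff p.1.1 p.1.2 p.2

/-- a presentation with the letters `0, 1, …` -/
structure FPN (G : Type) [Group G] (K : ℕ) (L : List Wd) (π : FreeGroup ℕ →* G) : Prop where
  surj : Function.Surjective π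
  ker : ∀ x, π x = 1 ↔ x ∈ Subgroup.normalClosure (relsN K L)

theorem FPN.word {G : Type} [Group G] {K : ℕ} {L : List Wd} {π : FreeGroup ℕ →* G}
    (h : FPN G K L π) (g : G) : ∃ v : Wd, π (FreeGroup.mk v) = g := by
  obtain ⟨x, rfl⟩ := h.surj g
  exact ⟨x.toWord, by rw [FreeGroup.mk_toWord]⟩

theorem fpn_of_iso {G : Type} [Group G] {K : ℕ} {L : List Wd}
    (e : G ≃* PresentedGroup (relsN K L)) : ∃ π : FreeGroup ℕ →* G, FPN G K L π := by
  refine ⟨e.symm.toMonoidHom.comp (PresentedGroup.mk (relsN K L)), ?_, fun x => ?_⟩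
  · exact e.symm.surjective.comp (PresentedGroup.mk_surjective _)
  · rw [MonoidHom.comp_apply, ← PresentedGroup.mk_eq_one_iff]
    exact MulEquiv.map_eq_one_iff e.symm

theorem relset (m : ℕ) (rels : Finset (FreeGroup (Fin m))) :
    ({r : FreeGroup ℕ | ∃ i : ℕ, m ≤ i ∧ r = FreeGroup.of i} ∪
        (FreeGroup.map (fun x : Fin m => (((Equiv.refl (Fin m)) x : Fin m) : ℕ))) ''
          (rels : Set (FreeGroup (Fin m)))) =
      relsN m (rels.toList.map (fun r => (FreeGroup.map (fun x : Fin m => (x : ℕ)) r).toWord)) := by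
  unfold relsN
  congr 1
  ext r
  constructor
  · rintro ⟨s, hs, rfl⟩
    refine ⟨(FreeGroup.map (fun x : Fin m => (x : ℕ)) s).toWord, ?_, FreeGroup.mk_toWord.symm⟩
    rw [List.mem_map]
    exact ⟨s, Finset.mem_toList.2 hs, rfl⟩
  · rintro ⟨w', hw', rfl⟩
    rw [List.mem_map] at hw'
    obtain ⟨s, hs, rfl⟩ := hw'
    exact ⟨s, Finset.mem_toList.1 hs, FreeGroup.mk_toWord.symm⟩

theorem fpn (m : ℕ) (rels : Finset (FreeGroup (Fin m))) :
    ∃ (K : ℕ) (L : List Wd) (π : FreeGroup ℕ →* PresentedGroup (rels : Set (FreeGroup (Fin m)))),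
      FPN _ K L π := by
  obtain ⟨e⟩ := ptr_iso (Fin m) m (Equiv.refl _) (rels : Set (FreeGroup (Fin m)))
  rw [relset] at e
  obtain ⟨π, hπ⟩ := fpn_of_iso e
  exact ⟨_, _, π, hπ⟩

/-! ### words over the letters of another group -/

/-- substitution -/
def sub {ι : Type} (t : ι → Wd) (w : List (ι × Bool)) : Wd :=
  w.flatMap fun s => if s.2 = true then t s.1 else inv (t s.1)

theorem mk_sub {ι G : Type} [Group G] (t : ι → Wd) (π : FreeGroup ℕ →* G) (w : List (ι × Bool)) :
    π (FreeGroup.mk (sub t w)) =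
      FreeGroup.lift (fun i => π (FreeGroup.mk (t i))) (FreeGroup.mk w) := by
  induction w with
  | nil =>
    show π (FreeGroup.mk []) = _
    rw [mk_nil', map_one, ← FreeGroup.one_eq_mk, map_one]
  | cons s w ih =>
    have h1 : sub t (s :: w) = (if s.2 = true then t s.1 else inv (t s.1)) ++ sub t w := by
      unfold sub
      rw [List.flatMap_cons]
    have h2 : FreeGroup.mk (s :: w) = FreeGroup.mk [s] * FreeGroup.mk w := by
      rw [FreeGroup.mul_mk]
      rfl
    rw [h1, mk_app, map_mul, ih, h2, map_mul]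
    congr 1
    obtain ⟨i, b⟩ := s
    cases b
    · rw [if_neg (by simp), inv_eq, map_inv]
      simp
    · rw [if_pos rfl]
      simp

theorem primrec_sub_fin {n : ℕ} (t : Fin n → Wd) : Primrec (sub t) := by
  unfold sub
  refine Primrec.list_flatMap Primrec.id ?_
  have h : Primrec (fun s : Fin n × Bool => if s.2 = true then t s.1 else inv (t s.1)) :=
    Primrec.dom_finite _
  exact (h.comp Primrec.snd).to₂

/-- the generator number `i` of the list -/
def nth (hs : List Wd) (i : ℕ) : Wd := hs.getD i []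

theorem primrec_nth (hs : List Wd) : Primrec (nth hs) :=
  (Primrec.list_getD ([] : Wd)).comp (Primrec.const hs) Primrec.id

theorem primrec_sub_nth (hs : List Wd) : Primrec (sub (nth hs)) := by
  unfold sub
  refine Primrec.list_flatMap Primrec.id ?_
  have h1 : Primrec (fun p : List (ℕ × Bool) × (ℕ × Bool) => nth hs p.2.1) :=
    (primrec_nth hs).comp (Primrec.fst.comp Primrec.snd)
  exact (Primrec.ite (Primrec.eq.comp (Primrec.snd.comp Primrec.snd) (Primrec.const Bool.true)) h1
    (pr_inv.comp h1)).to₂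

/-- finitely generated subgroups are given by lists of words -/
theorem fg_words {G : Type} [Group G] {K : ℕ} {L : List Wd} {π : FreeGroup ℕ →* G}
    (h : FPN G K L π) (P : Subgroup G) (hP : P.FG) :
    ∃ hs : List Wd, ∀ g, g ∈ P ↔ ∃ z : List (ℕ × Bool), π (FreeGroup.mk (sub (nth hs) z)) = g := by
  classical
  obtain ⟨T, rfl⟩ := hP
  choose wd hwd using h.word
  refine ⟨T.toList.map wd, fun g => ?_⟩
  have hn : ∀ i, π (FreeGroup.mk (nth (T.toList.map wd) i)) ∈ Subgroup.closure (T : Set G) := by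
    intro i
    unfold nth
    by_cases hi : i < (T.toList.map wd).length
    · rw [List.getD_eq_getElem _ _ hi, List.getElem_map, hwd]
      exact Subgroup.subset_closure (Finset.mem_toList.1 (List.getElem_mem _))
    · rw [List.getD_eq_default _ _ (not_lt.1 hi), mk_nil', map_one]
      exact Subgroup.one_mem _
  constructor
  · intro hg
    induction hg using Subgroup.closure_induction with
    | mem x hx =>
      obtain ⟨i, hi, hix⟩ := List.getElem_of_mem (Finset.mem_toList.2 hx)
      refine ⟨[(i, true)], ?_⟩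
      rw [mk_sub]
      have hi' : i < (T.toList.map wd).length := by rwa [List.length_map]
      simp only [FreeGroup.lift_mk, List.map_cons, List.map_nil, List.prod_cons, List.prod_nil,
        mul_one, cond_true]
      unfold nth
      rw [List.getD_eq_getElem _ _ hi', List.getElem_map, hwd, hix]
    | one => exact ⟨[], by rw [mk_sub, ← FreeGroup.one_eq_mk, map_one]⟩
    | mul a b _ _ ha hb =>
      obtain ⟨z, rfl⟩ := ha
      obtain ⟨z', rfl⟩ := hb
      refine ⟨z ++ z', ?_⟩
      rw [mk_sub, mk_sub, mk_sub, ← map_mul, FreeGroup.mul_mk]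
    | inv a _ ha =>
      obtain ⟨z, rfl⟩ := ha
      refine ⟨FreeGroup.invRev z, ?_⟩
      rw [mk_sub, mk_sub, ← map_inv, FreeGroup.inv_mk]
  · rintro ⟨z, rfl⟩
    rw [mk_sub]
    have hle : (FreeGroup.lift (fun i => π (FreeGroup.mk (nth (T.toList.map wd) i)))).range ≤
        Subgroup.closure (T : Set G) := by
      rw [FreeGroup.range_lift_eq_closure, Subgroup.closure_le]
      rintro _ ⟨i, rfl⟩
      exact hn i
    exact hle ⟨_, rfl⟩

/-- the word problem of a finitely generated subgroup -/
theorem computable_of {n : ℕ} {R : Set (FreeGroup (Fin n))} {G : Type} [Group G] {K : ℕ}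
    {L : List Wd} {π : FreeGroup ℕ →* G} (h : FPN G K L π) (φ : PresentedGroup R →* G)
    (hφ : Function.Injective φ) (B : Wd → Prop) (hB : SR B)
    (hB2 : ∀ (v : Wd) (y : PresentedGroup R), π (FreeGroup.mk v) = φ y → (B v ↔ φ y ≠ 1)) :
    ComputablePred (fun w : List (Fin n × Bool) => PresentedGroup.mk R (FreeGroup.mk w) = 1) := by
  choose wd hwd using h.word
  let t : Fin n → Wd := fun i => wd (φ (PresentedGroup.of i))
  have ht : ∀ w : List (Fin n × Bool), π (FreeGroup.mk (sub t w)) =
      φ (PresentedGroup.mk R (FreeGroup.mk w)) := by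
    intro w
    rw [mk_sub]
    have h1 : FreeGroup.lift (fun i => π (FreeGroup.mk (t i))) =
        φ.comp (PresentedGroup.mk R) := by
      ext i
      rw [FreeGroup.lift_apply_of, hwd]
      rfl
    rw [h1]
    rfl
  have hone : ∀ w : List (Fin n × Bool), PresentedGroup.mk R (FreeGroup.mk w) = 1 ↔
      φ (PresentedGroup.mk R (FreeGroup.mk w)) = 1 := by
    intro w
    constructor
    · intro h
      rw [h, map_one]
    · intro h
      exact hφ (h.trans (map_one φ).symm)
  have h1 : SR (fun v : Wd => FreeGroup.mk v ∈ Subgroup.normalClosure (relsN K L)) :=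
    sr_nc.comp (f := fun v : Wd => ((K, L), v)) (Primrec.pair (Primrec.const (K, L)) Primrec.id)
  have h2 : REPred (fun w : List (Fin n × Bool) =>
      FreeGroup.mk (sub t w) ∈ Subgroup.normalClosure (relsN K L)) :=
    (h1.comp (primrec_sub_fin t)).re
  have h3 : REPred (fun w : List (Fin n × Bool) => B (sub t w)) :=
    (hB.comp (primrec_sub_fin t)).re
  have h4 : REPred (fun w : List (Fin n × Bool) =>
      PresentedGroup.mk R (FreeGroup.mk w) = 1) := by
    refine h2.of_eq fun w => ?_
    rw [← h.ker, ht]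
    exact (hone w).symm
  have h5 : REPred (fun w : List (Fin n × Bool) =>
      ¬ PresentedGroup.mk R (FreeGroup.mk w) = 1) := by
    refine h3.of_eq fun w => ?_
    rw [hB2 _ _ (ht w)]
    exact not_congr (hone w).symm
  exact ComputablePred.computable_iff_re_compl_re'.2 ⟨h4, h5⟩

end Pool.Agent.H318.WP
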