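import Pool.Graph.R_seed8.Results.MP_24fec0_al.TypeAOligomorphic
import Pool.Agent.H318.WP.Comp

/-!
# MP_24fec0_al: the converse directions: the word problem from actions and from simple normal
subgroups
-/

set_option autoImplicit false

namespace Pool.Agent.H318.WP

open Pool.Agent.H665Simp Pool.Agent.Results.MP_24fec0_al.TypeAOligomorphic

/-- `H` embeds in a simple normal subgroup of a finitely presented group -/
def EmbedsSimpleNormal (H : Type) [Group H] : Prop :=
  ∃ (m : ℕ) (rels : Finset (FreeGroup (Fin m)))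
    (φ : H →* PresentedGroup (rels : Set (FreeGroup (Fin m))))
    (N : Subgroup (PresentedGroup (rels : Set (FreeGroup (Fin m))))),
    N.Normal ∧ IsSimpleGroup N ∧ Function.Injective φ ∧ ∀ h, φ h ∈ N

section

variable {n : ℕ} (R : Set (FreeGroup (Fin n)))

theorem wp_of_simpleNormal (h : EmbedsSimpleNormal (PresentedGroup R)) :
    ComputablePred (fun w : List (Fin n × Bool) =>
      PresentedGroup.mk R (FreeGroup.mk w) = 1) := by
  obtain ⟨m, rels, φ, N, hN, hNs, hφ, hφN⟩ := h
  obtain ⟨K, L, π, hπ⟩ := fpn m rels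
  obtain ⟨n0, hn0⟩ : ∃ n0 : N, n0 ≠ 1 := by
    obtain ⟨a, b, hab⟩ := hNs.toNontrivial.exists_pair_ne
    by_cases ha : a = 1
    · exact ⟨b, fun hb => hab (ha.trans hb.symm)⟩
    · exact ⟨a, ha⟩
  obtain ⟨v0, hv0⟩ := hπ.word (n0 : PresentedGroup (rels : Set (FreeGroup (Fin m))))
  have hv0' : π (FreeGroup.mk v0) ≠ 1 := by
    rw [hv0]
    intro h1
    exact hn0 (Subtype.ext h1)
  refine computable_of hπ φ hφ
    (fun v => FreeGroup.mk v0 ∈ Subgroup.normalClosure (relsN K (v :: L))) ?_ ?_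
  · exact sr_nc.comp (f := fun v : Wd => ((K, v :: L), v0)) (Primrec.pair (Primrec.pair
      (Primrec.const K) (Primrec.list_cons.comp Primrec.id (Primrec.const L))) (Primrec.const v0))
  · intro v y hvy
    have hsub : relsN K (v :: L) ⊆ relsN K L ∪ {FreeGroup.mk v} := by
      rintro r (⟨i, hi, rfl⟩ | ⟨w, hw, rfl⟩)
      · exact Or.inl (Or.inl ⟨i, hi, rfl⟩)
      · rcases List.mem_cons.1 hw with rfl | hw
        · exact Or.inr rfl
        · exact Or.inl (Or.inr ⟨w, hw, rfl⟩)
    have hL : relsN K L ⊆ relsN K (v :: L) := by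
      rintro r (⟨i, hi, rfl⟩ | ⟨w, hw, rfl⟩)
      · exact Or.inl ⟨i, hi, rfl⟩
      · exact Or.inr ⟨w, List.mem_cons_of_mem _ hw, rfl⟩
    constructor
    · intro h1 h2
      apply hv0'
      have h3 : Subgroup.normalClosure (relsN K (v :: L)) ≤ π.ker := by
        apply Subgroup.normalClosure_le_normal
        intro r hr
        rcases hsub hr with hr | hr
        · exact (hπ.ker r).2 (Subgroup.subset_normalClosure hr)
        · rw [Set.mem_singleton_iff] at hr
          rw [hr]
          exact hvy.trans h2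
      exact h3 h1
    · intro h1
      obtain ⟨M, hM⟩ : ∃ M, M = (Subgroup.normalClosure (relsN K (v :: L))).map π := ⟨_, rfl⟩
      have hMn : M.Normal := by
        rw [hM]
        exact Subgroup.Normal.map Subgroup.normalClosure_normal π hπ.surj
      have hMN : (M.subgroupOf N).Normal := Subgroup.Normal.subgroupOf hMn N
      have hvM : φ y ∈ M := by
        rw [← hvy, hM]
        exact Subgroup.mem_map_of_mem π (Subgroup.subset_normalClosure
          (Or.inr ⟨v, List.mem_cons_self, rfl⟩))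
      have htop : M.subgroupOf N = ⊤ := by
        rcases hNs.eq_bot_or_eq_top_of_normal _ hMN with h2 | h2
        · exfalso
          apply h1
          have h3 : (⟨φ y, hφN y⟩ : N) ∈ M.subgroupOf N := hvM
          rw [h2, Subgroup.mem_bot] at h3
          exact congrArg Subtype.val h3
        · exact h2
      have hn0M : (n0 : PresentedGroup (rels : Set (FreeGroup (Fin m)))) ∈ M := by
        have h3 : n0 ∈ M.subgroupOf N := by
          rw [htop]
          trivial
        exact h3
      rw [hM, ← hv0] at hn0M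
      obtain ⟨x, hx, hxv⟩ := hn0M
      have h4 : x⁻¹ * FreeGroup.mk v0 ∈ Subgroup.normalClosure (relsN K L) := by
        rw [← hπ.ker, map_mul, map_inv, hxv, inv_mul_cancel]
      have h5 := Subgroup.normalClosure_mono hL h4
      have h6 : FreeGroup.mk v0 = x * (x⁻¹ * FreeGroup.mk v0) := by group
      show FreeGroup.mk v0 ∈ Subgroup.normalClosure (relsN K (v :: L))
      rw [h6]
      exact Subgroup.mul_mem _ hx h5

/-- the word of one test -/
def tst (g : Wd) (hs : List Wd) (k v : Wd) (z : List (ℕ × Bool)) : Wd :=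
  inv g ++ (k ++ (v ++ (inv k ++ inv (sub (nth hs) z))))

theorem mk_tst {G : Type} [Group G] (π : FreeGroup ℕ →* G) (g : Wd) (hs : List Wd) (k v : Wd)
    (z : List (ℕ × Bool)) : π (FreeGroup.mk (tst g hs k v z)) =
      (π (FreeGroup.mk g))⁻¹ * (π (FreeGroup.mk k) * (π (FreeGroup.mk v) *
        ((π (FreeGroup.mk k))⁻¹ * (π (FreeGroup.mk (sub (nth hs) z)))⁻¹))) := by
  unfold tst
  simp only [mk_app, inv_eq, map_mul, map_inv]

theorem sr_tst (K : ℕ) (L : List Wd) (g : Wd) (hs : List Wd) : SR (fun v : Wd =>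
    ∃ (k : Wd) (z : List (ℕ × Bool)),
      FreeGroup.mk (tst g hs k v z) ∈ Subgroup.normalClosure (relsN K L)) := by
  have h1 : Primrec (fun q : (Wd × Wd) × List (ℕ × Bool) => tst g hs q.1.2 q.1.1 q.2) := by
    unfold tst
    have hk : Primrec (fun q : (Wd × Wd) × List (ℕ × Bool) => q.1.2) :=
      Primrec.snd.comp Primrec.fst
    have hv : Primrec (fun q : (Wd × Wd) × List (ℕ × Bool) => q.1.1) :=
      Primrec.fst.comp Primrec.fst
    exact Primrec.list_append.comp (Primrec.const _) (Primrec.list_append.comp hk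
      (Primrec.list_append.comp hv (Primrec.list_append.comp (pr_inv.comp hk)
        (pr_inv.comp ((primrec_sub_nth hs).comp Primrec.snd)))))
  have h2 : SR (fun q : (Wd × Wd) × List (ℕ × Bool) =>
      FreeGroup.mk (tst g hs q.1.2 q.1.1 q.2) ∈ Subgroup.normalClosure (relsN K L)) :=
    sr_nc.comp (f := fun q : (Wd × Wd) × List (ℕ × Bool) => ((K, L), tst g hs q.1.2 q.1.1 q.2))
      (Primrec.pair (Primrec.const (K, L)) h1)
  exact SR.ex ([] : Wd) (SR.ex ([] : List (ℕ × Bool)) h2)

theorem wp_of_typeA (h : EmbedsTypeA (PresentedGroup R)) :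
    ComputablePred (fun w : List (Fin n × Bool) =>
      PresentedGroup.mk R (FreeGroup.mk w) = 1) := by
  classical
  obtain ⟨m, rels, φ, S, hS, ρ, hφ, hρ, hpairs, hst⟩ := h
  obtain ⟨K, L, π, hπ⟩ := fpn m rels
  obtain ⟨f, hf⟩ : ∃ f : S × S → Set (S × S), f = fun x : S × S =>
      {y : S × S | ∃ h : PresentedGroup (rels : Set (FreeGroup (Fin m))),
        y = (ρ h x.1, ρ h x.2)} := ⟨_, rfl⟩
  rw [← hf] at hpairs
  -- data for each orbit of pairs
  have hdata : ∀ A : Set (S × S), ∃ (a : S) (g : Wd) (hs : List Wd),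
      (∃ (a' : S) (g' : PresentedGroup (rels : Set (FreeGroup (Fin m)))),
        ρ g' a' ≠ a' ∧ f (a', ρ g' a') = A) →
      ρ (π (FreeGroup.mk g)) a ≠ a ∧ f (a, ρ (π (FreeGroup.mk g)) a) = A ∧
      ∀ q, ρ q a = a ↔ ∃ z : List (ℕ × Bool), π (FreeGroup.mk (sub (nth hs) z)) = q := by
    intro A
    by_cases hA : ∃ (a' : S) (g' : PresentedGroup (rels : Set (FreeGroup (Fin m)))),
        ρ g' a' ≠ a' ∧ f (a', ρ g' a') = A
    · obtain ⟨a', g', h1, h2⟩ := hA
      obtain ⟨g, rfl⟩ := hπ.word g'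
      obtain ⟨hs, hhs⟩ := fg_words hπ _ (hst a')
      exact ⟨a', g, hs, fun _ => ⟨h1, h2, fun q => hhs q⟩⟩
    · obtain ⟨s⟩ : Nonempty S := inferInstance
      exact ⟨s, [], [], fun h => absurd h hA⟩
  choose ra rg rh hr using hdata
  let Good : Set (S × S) → Prop := fun A =>
    ∃ (a' : S) (g' : PresentedGroup (rels : Set (FreeGroup (Fin m)))),
        ρ g' a' ≠ a' ∧ f (a', ρ g' a') = A
  let l : List (Set (S × S)) := hpairs.toFinset.toList.filter (fun A => decide (Good A))
  have hl : ∀ A, A ∈ l ↔ (∃ x, f x = A) ∧ Good A := by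
    intro A
    simp only [l, List.mem_filter, Finset.mem_toList, Set.Finite.mem_toFinset, Set.mem_range,
      decide_eq_true_eq]
  refine computable_of hπ φ hφ
    (fun v => ∃ A ∈ l, ∃ (k : Wd) (z : List (ℕ × Bool)),
      FreeGroup.mk (tst (rg A) (rh A) k v z) ∈ Subgroup.normalClosure (relsN K L)) ?_ ?_
  · exact SR.exList l (fun A v => ∃ (k : Wd) (z : List (ℕ × Bool)),
      FreeGroup.mk (tst (rg A) (rh A) k v z) ∈ Subgroup.normalClosure (relsN K L))
      (fun A => sr_tst K L (rg A) (rh A))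
  · intro v y hvy
    rw [← hvy]
    constructor
    · rintro ⟨A, hA, k, z, hkz⟩ h1
      obtain ⟨h2, h3, h4⟩ := hr A ((hl A).1 hA).2
      rw [← hπ.ker, mk_tst, h1] at hkz
      apply h2
      have h5 := (h4 (π (FreeGroup.mk (sub (nth (rh A)) z)))).2 ⟨z, rfl⟩
      have h6 : π (FreeGroup.mk (rg A)) = (π (FreeGroup.mk (sub (nth (rh A)) z)))⁻¹ := by
        rw [one_mul, mul_inv_cancel_left, inv_mul_eq_one] at hkz
        exact hkz
      rw [h6, map_inv, Equiv.Perm.inv_eq_iff_eq]
      exact h5.symm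
    · intro h1
      obtain ⟨s, hs⟩ : ∃ s, ρ (π (FreeGroup.mk v)) s ≠ s := by
        by_contra hcon
        push Not at hcon
        apply h1
        apply hρ
        rw [map_one]
        exact Equiv.ext hcon
      obtain ⟨A, hA⟩ : ∃ A, A = f (s, ρ (π (FreeGroup.mk v)) s) := ⟨_, rfl⟩
      have hGood : Good A := ⟨s, _, hs, hA.symm⟩
      obtain ⟨h2, h3, h4⟩ := hr A hGood
      have h5 : (ra A, ρ (π (FreeGroup.mk (rg A))) (ra A)) ∈
          f (s, ρ (π (FreeGroup.mk v)) s) := by
        have h6 : ∀ p, p ∈ f p := by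
          intro p
          rw [hf]
          exact ⟨1, by simp⟩
        have h7 := h6 (ra A, ρ (π (FreeGroup.mk (rg A))) (ra A))
        rw [h3, hA] at h7
        rw [← hA] at h7 ⊢
        exact h7
      rw [hf] at h5
      obtain ⟨k', hk'⟩ := h5
      obtain ⟨k, rfl⟩ := hπ.word k'
      rw [Prod.mk.injEq] at hk'
      obtain ⟨e1, e2⟩ := hk'
      dsimp only at e1 e2
      -- the element of the stabilizer
      obtain ⟨z, hz⟩ := (h4 ((π (FreeGroup.mk (rg A)))⁻¹ * (π (FreeGroup.mk k) *
        (π (FreeGroup.mk v) * (π (FreeGroup.mk k))⁻¹)))).1 (by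
          rw [map_mul, map_mul, map_mul, map_inv, map_inv, Equiv.Perm.mul_apply,
            Equiv.Perm.mul_apply, Equiv.Perm.mul_apply, Equiv.Perm.inv_eq_iff_eq, e2]
          congr 2
          rw [Equiv.Perm.inv_eq_iff_eq]
          exact e1)
      refine ⟨A, (hl A).2 ⟨⟨_, hA.symm⟩, hGood⟩, k, z, ?_⟩
      rw [← hπ.ker, mk_tst, hz]
      group

end

end Pool.Agent.H318.WP
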