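import Pool.Graph.R_seed8.Y455.BH.Cent

/-!
# MP_24fec0_al: the Steinberg group of a simple ring (infinitely many indices) is simple if it acts
faithfully on the vectors
-/

set_option autoImplicit false

open scoped commutatorElement

namespace Pool.Agent.H318.WP

open Y208.BH Pool.Agent.Y455.BH

section
variable {R I : Type} [Ring R]

theorem comm_mem_left {G : Type} [Group G] {K : Subgroup G} (hK : K.Normal) {a : G} (b : G)
    (ha : a ∈ K) : ⁅a, b⁆ ∈ K := by
  rw [commutatorElement_def]
  have h : a * b * a⁻¹ * b⁻¹ = a * (b * a⁻¹ * b⁻¹) := by group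
  rw [h]
  exact K.mul_mem ha (hK.conj_mem _ (K.inv_mem ha) b)

theorem comm_mem_right {G : Type} [Group G] {K : Subgroup G} (hK : K.Normal) (a : G) {b : G}
    (hb : b ∈ K) : ⁅a, b⁆ ∈ K := by
  rw [commutatorElement_def]
  exact K.mul_mem (hK.conj_mem _ hb a) (K.inv_mem hb)

theorem spread [Infinite I] [DecidableEq I] {K : Subgroup (SU R I)} (hK : K.Normal) {i j : I}
    (hij : i ≠ j) {r : R} (h : xs i j r ∈ K) (b c : R) {i' j' : I} (hij' : i' ≠ j') :
    xs i' j' (b * r * c) ∈ K := by
  obtain ⟨p, hp⟩ := exists_fresh ({i, j, i', j'} : Finset I)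
  obtain ⟨q, hq⟩ := exists_fresh ({i, j, i', j', p} : Finset I)
  simp only [Finset.mem_insert, Finset.mem_singleton, not_or] at hp hq
  obtain ⟨p1, p2, p3, p4⟩ := hp
  obtain ⟨q1, q2, q3, q4, q5⟩ := hq
  have h1 : xs p j (b * r) ∈ K := by
    rw [← xs_mul p1 hij p2]
    exact comm_mem_right hK _ h
  have h2 : xs p q (b * r * c) ∈ K := by
    rw [← xs_mul p2 (Ne.symm q2) (Ne.symm q5)]
    exact comm_mem_left hK _ h1
  have h3 : xs i' q (b * r * c) ∈ K := by
    have := xs_mul (R := R) (Ne.symm p3) (Ne.symm q5) (Ne.symm q3) 1 (b * r * c)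
    rw [one_mul] at this
    rw [← this]
    exact comm_mem_right hK _ h2
  have := xs_mul (R := R) (Ne.symm q3) q4 hij' (b * r * c) 1
  rw [mul_one] at this
  rw [← this]
  exact comm_mem_left hK _ h3

/-- the Steinberg group of a simple ring is simple if it acts faithfully on the vectors -/
theorem su_simple [Infinite I] [hR : IsSimpleRing R]
    (hf : ∀ z : SU R I, rho R R I z = 1 → z = 1) : IsSimpleGroup (SU R I) := by
  classical
  have hnt : Nontrivial R := inferInstance
  have hne : Nontrivial (SU R I) := by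
    obtain ⟨i, -⟩ := exists_fresh (∅ : Finset I)
    obtain ⟨j, hj⟩ := exists_fresh ({i} : Finset I)
    rw [Finset.mem_singleton] at hj
    refine ⟨xs i j 1, 1, fun h => ?_⟩
    have h1 := congrArg (fun z => (rho R R I z (Finsupp.single j 1)) i) h
    simp only [map_one, Equiv.Perm.one_apply, rho_xs, el_apply (Ne.symm hj)] at h1
    rw [Finsupp.add_apply, Finsupp.single_eq_same, Finsupp.single_eq_same, smul_eq_mul, mul_one,
      Finsupp.single_eq_of_ne (Ne.symm hj), zero_add] at h1
    exact one_ne_zero h1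
  refine { toNontrivial := hne, eq_bot_or_eq_top_of_normal := ?_ }
  intro K hK
  by_cases hbot : K = ⊥
  · exact Or.inl hbot
  right
  obtain ⟨z, hz, hz1⟩ : ∃ z ∈ K, z ≠ 1 := by
    by_contra hcon
    push Not at hcon
    exact hbot ((Subgroup.eq_bot_iff_forall K).2 hcon)
  obtain ⟨v, hv⟩ : ∃ v, rho R R I z v ≠ v := by
    by_contra hcon
    push Not at hcon
    exact hz1 (hf z (Equiv.ext hcon))
  obtain ⟨J, hJ⟩ := exists_J z
  obtain ⟨m, hm⟩ := exists_fresh (J ∪ (v.support ∪ (rho R R I z v).support))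
  simp only [Finset.mem_union, not_or, Finsupp.notMem_support_iff] at hm
  obtain ⟨hmJ, hmv, hmz⟩ := hm
  obtain ⟨C, hC, hC1⟩ := exists_col (R := R) m
  obtain ⟨D, hD, hD1⟩ := exists_row (R := R) m
  obtain ⟨h1, -⟩ := act_SJ (J := (J : Set I)) (by simpa using hmJ) hC hC1 hD hD1 hJ
  obtain ⟨u, hu⟩ : ∃ u, u = rho R R I z v - v := ⟨_, rfl⟩
  have hCu : C u ∈ K := by
    have e1 : C u * C v = z * C v * z⁻¹ := by
      rw [h1, ← hC, hu, sub_add_cancel]
    have e2 : C u = z * (C v * z⁻¹ * (C v)⁻¹) := by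
      rw [eq_mul_inv_of_mul_eq e1]
      group
    rw [e2]
    exact K.mul_mem hz (hK.conj_mem _ (K.inv_mem hz) _)
  obtain ⟨k, hk⟩ : ∃ k, u k ≠ 0 := by
    by_contra hcon
    push Not at hcon
    apply hv
    rw [← sub_eq_zero, ← hu]
    ext k
    rw [hcon k]
    rfl
  have hkm : k ≠ m := by
    rintro rfl
    apply hk
    rw [hu, Finsupp.sub_apply, hmz, hmv, sub_zero]
  obtain ⟨l, hl⟩ := exists_fresh ({k, m} : Finset I)
  simp only [Finset.mem_insert, Finset.mem_singleton, not_or] at hl
  obtain ⟨hlk, hlm⟩ := hl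
  have hb : xs l m (u k) ∈ K := by
    have e := col_conj hC hC1 hlk hlm hkm 1 u
    rw [el_apply hlk, hC, hC1, one_smul] at e
    rw [eq_inv_mul_of_mul_eq e.symm]
    exact K.mul_mem (K.inv_mem hCu) (hK.conj_mem _ hCu _)
  let T : TwoSidedIdeal R := TwoSidedIdeal.mk' {r | ∀ i j : I, i ≠ j → xs i j r ∈ K}
    (fun i j _ => by rw [xs_zero]; exact K.one_mem)
    (fun {x y} hx hy i j hij => by rw [xs_add]; exact K.mul_mem (hx i j hij) (hy i j hij))
    (fun {x} hx i j hij => by rw [xs_neg]; exact K.inv_mem (hx i j hij))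
    (fun {x y} hy i j hij => by
      have := spread hK hlm (hy l m hlm) x 1 hij
      rwa [mul_one] at this)
    (fun {x y} hx i j hij => by
      have := spread hK hlm (hx l m hlm) 1 y hij
      rwa [one_mul] at this)
  have hTm : ∀ r, r ∈ T ↔ ∀ i j : I, i ≠ j → xs i j r ∈ K := by
    intro r
    exact TwoSidedIdeal.mem_mk' _ _ _ _ _ _ _
  have hT : T = ⊤ := by
    rcases hR.simple.eq_bot_or_eq_top T with h | h
    · exfalso
      apply hk
      have : u k ∈ T := by
        rw [hTm]
        intro i j hij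
        have := spread hK hlm hb 1 1 hij
        rwa [one_mul, mul_one] at this
      rw [h] at this
      exact this
    · exact h
  have hall : ∀ r : R, ∀ i j : I, i ≠ j → xs i j r ∈ K := by
    intro r
    rw [← hTm, hT]
    trivial
  rw [eq_top_iff, ← closure_xs R I, Subgroup.closure_le]
  rintro _ ⟨i, j, r, hij, rfl⟩
  exact hall r i j hij

end

end Pool.Agent.H318.WP
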