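import Pool.Graph.R_seed8.Y208.BH.Final
import Pool.Agent.H318.WP.Ring
import Pool.Agent.H318.WP.Simple
import Pool.Agent.H318.WP.Conv

/-!
# MP_24fec0_al: the group with its simple normal subgroup

The assembly `Y208.BH.t_CORE` of the library once more, with the elementary subgroup.
-/

set_option autoImplicit false

open scoped commutatorElement TensorProduct

namespace Pool.Agent.H318.WP

open Y208.BH Pool.Agent.Results.MP_24fec0_al.TypeAOligomorphic

/-- `H` embeds in a simple normal subgroup `N` of a finitely presented group which acts faithfully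
on an infinite set, with finitely generated point stabilizers, where already `N` is transitive on
the pairs of different points -/
def EmbedsStrongly (H : Type) [Group H] : Prop :=
  ∃ (m : ℕ) (rels : Finset (FreeGroup (Fin m)))
    (φ : H →* PresentedGroup (rels : Set (FreeGroup (Fin m))))
    (N : Subgroup (PresentedGroup (rels : Set (FreeGroup (Fin m)))))
    (X : Type) (_ : Infinite X)
    (ρ : PresentedGroup (rels : Set (FreeGroup (Fin m))) →* Equiv.Perm X),
    (N.Normal ∧ IsSimpleGroup N ∧ Function.Injective φ ∧ ∀ h, φ h ∈ N) ∧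
    Function.Injective ρ ∧
    (∀ x y x' y' : X, x ≠ y → x' ≠ y' → ∃ g ∈ N, ρ g x = x' ∧ ρ g y = y') ∧
    ∀ s : X, ((MulAction.stabilizer (Equiv.Perm X) s).comap ρ).FG

theorem EmbedsStrongly.simpleNormal {H : Type} [Group H] (h : EmbedsStrongly H) :
    EmbedsSimpleNormal H := by
  obtain ⟨m, rels, φ, N, X, _, ρ, h, -⟩ := h
  exact ⟨m, rels, φ, N, h⟩

theorem EmbedsStrongly.typeA {H : Type} [Group H] (h : EmbedsStrongly H) :
    EmbedsTypeA H := by
  obtain ⟨m, rels, φ, N, X, _, ρ, ⟨-, -, hφ, -⟩, hρ, h2, hst⟩ := h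
  obtain ⟨s⟩ : Nonempty X := inferInstance
  exact embedsTypeA_of H _ X φ hφ ρ hρ (fun x y x' y' hxy hxy' => by
    obtain ⟨g, -, h⟩ := h2 x y x' y' hxy hxy'
    exact ⟨g, h⟩) ⟨s, hst s⟩

theorem strong_of (H Q X : Type) [Group H] [Group Q] [Group.IsFinitelyPresented Q]
    (φ : H →* Q) (hφ : Function.Injective φ) (N : Subgroup Q) (hN : N.Normal)
    (hNs : IsSimpleGroup N) (hφN : ∀ h, φ h ∈ N) [Infinite X] (ρ : Q →* Equiv.Perm X)
    (hρ : Function.Injective ρ)
    (h2 : ∀ x y x' y' : X, x ≠ y → x' ≠ y' → ∃ q ∈ N, ρ q x = x' ∧ ρ q y = y')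
    (hst : ∃ s : X, ((MulAction.stabilizer (Equiv.Perm X) s).comap ρ).FG) :
    EmbedsStrongly H := by
  obtain ⟨m, r, hr, ⟨θ⟩⟩ := Group.IsFinitelyPresented.exists_mulEquiv_presentedGroup (G := Q)
  obtain ⟨r', rfl⟩ := hr.exists_finset_coe
  have h1 : ∀ x x' : X, ∃ q, ρ q x = x' := by
    intro x x'
    obtain ⟨y, hy⟩ : ∃ y, y ≠ x := exists_ne x
    obtain ⟨y', hy'⟩ : ∃ y', y' ≠ x' := exists_ne x'
    obtain ⟨q, -, hq, -⟩ := h2 x y x' y' hy.symm hy'.symm
    exact ⟨q, hq⟩
  refine ⟨m, r', θ.toMonoidHom.comp φ, N.map θ.toMonoidHom, X, inferInstance,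
    ρ.comp θ.symm.toMonoidHom, ⟨?_, ?_, θ.injective.comp hφ, ?_⟩, hρ.comp θ.symm.injective,
    ?_, ?_⟩
  · exact Subgroup.Normal.map hN θ.toMonoidHom θ.surjective
  · let e : N ≃* N.map θ.toMonoidHom := N.equivMapOfInjective θ.toMonoidHom θ.injective
    have : Nontrivial (N.map θ.toMonoidHom) := e.symm.toEquiv.nontrivial
    exact IsSimpleGroup.isSimpleGroup_of_surjective e.toMonoidHom e.surjective
  · intro h
    exact ⟨φ h, hφN h, rfl⟩
  · intro x y x' y' hxy hxy'
    obtain ⟨q, hq, e1, e2⟩ := h2 x y x' y' hxy hxy'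
    refine ⟨θ q, ⟨q, hq, rfl⟩, ?_, ?_⟩
    · show ρ (θ.symm (θ q)) x = x'
      rw [MulEquiv.symm_apply_apply, e1]
    · show ρ (θ.symm (θ q)) y = y'
      rw [MulEquiv.symm_apply_apply, e2]
  · intro t
    obtain ⟨s, hs⟩ := hst
    obtain ⟨g, hg⟩ := h1 s t
    have e : ((MulAction.stabilizer (Equiv.Perm X) t).comap (ρ.comp θ.symm.toMonoidHom)) =
        (((MulAction.stabilizer (Equiv.Perm X) s).comap ρ).map
          (MulAut.conj g).toMonoidHom).map θ.toMonoidHom := by
      ext q
      constructor
      · intro hq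
        have hq' : ρ (θ.symm q) t = t := hq
        refine ⟨θ.symm q, ⟨g⁻¹ * θ.symm q * g, ?_, ?_⟩, ?_⟩
        · show ρ (g⁻¹ * θ.symm q * g) s = s
          rw [map_mul, map_mul, Equiv.Perm.mul_apply, Equiv.Perm.mul_apply, hg, hq', map_inv,
            Equiv.Perm.inv_eq_iff_eq, hg]
        · show g * (g⁻¹ * θ.symm q * g) * g⁻¹ = θ.symm q
          group
        · exact θ.apply_symm_apply q
      · rintro ⟨_, ⟨p, hp, rfl⟩, rfl⟩
        have hp' : ρ p s = s := hp
        show ρ (θ.symm (θ (g * p * g⁻¹))) t = t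
        rw [MulEquiv.symm_apply_apply, ← hg, ← Equiv.Perm.mul_apply, ← map_mul,
          inv_mul_cancel_right, map_mul, Equiv.Perm.mul_apply, hp']
    rw [e]
    exact fg_map _ (fg_map _ hs)

theorem core_strong (hFPQ : S_FPQ) (hTYA : S_TYA) (hK1 : S_K1) (hTR : S_TR) (hSTAB : S_STAB)
    (hACT : S_ACT) (hFGS : S_FGS) (hINJ : S_INJ) (hK2 : S_K2) (H R V : Type) [Group H] [Ring R]
    [Algebra (ZMod 2) R] [AddCommGroup V] [Module R V] (v0 : V) (hfp : FPA R) (hsw : SwR R)
    (hgood : Good R V v0) (hRs : IsSimpleRing R) (θ : H →* Rˣ) (hθ : Function.Injective θ) :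
    EmbedsStrongly H := by
  obtain ⟨Λ, S, _, _, hA⟩ := hTYA
  have : Infinite S := hA.inf
  obtain ⟨Q, _, i, x, hQ, hE⟩ := hFPQ Λ S R hA hfp
  obtain ⟨π, hπi, hπx⟩ := hACT Λ S R V Q i x hE
  have hinj : Function.Injective π := hINJ Λ S R V Q i x v0 hA hsw hE hgood π hπi hπx
  let I := S ⊕ Fin 4
  have hsub : EG R V I ≤ π.range := by
    rw [EG, Subgroup.closure_le]
    rintro _ ⟨a, b, r, hab, rfl⟩
    exact ⟨x a b r, hπx a b r hab⟩
  let o : I := .inr 0
  -- the normal subgroup
  let N0 : Subgroup Q := Subgroup.closure {z | ∃ a b r, a ≠ b ∧ z = x a b r}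
  have hsubN : EG R V I ≤ N0.map π := by
    rw [EG, Subgroup.closure_le]
    rintro _ ⟨a, b, r, hab, rfl⟩
    exact ⟨x a b r, Subgroup.subset_closure ⟨a, b, r, hab, rfl⟩, hπx a b r hab⟩
  have hN0 : N0.Normal := by
    have hmv : ∀ (g : Λ) (a b : I), a ≠ b → mv g a ≠ mv g b := by
      intro g a b hab h
      apply hab
      rcases a with a | a <;> rcases b with b | b
      · have : g • a = g • b := Sum.inl_injective h
        rw [smul_left_cancel g this]
      · exact absurd h (by simp [mv])
      · exact absurd h (by simp [mv])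
      · have : a = b := Sum.inr_injective h
        rw [this]
    have hconj : ∀ g, ∀ n ∈ N0, i g * n * (i g)⁻¹ ∈ N0 := by
      intro g n hn
      induction hn using Subgroup.closure_induction with
      | mem n hn =>
        obtain ⟨a, b, r, hab, rfl⟩ := hn
        rw [hE.eqv g a b r hab]
        exact Subgroup.subset_closure ⟨_, _, _, hmv g a b hab, rfl⟩
      | one => simp
      | mul a b _ _ ha hb =>
        have : i g * (a * b) * (i g)⁻¹ = (i g * a * (i g)⁻¹) * (i g * b * (i g)⁻¹) := by group
        rw [this]; exact N0.mul_mem ha hb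
      | inv a _ ha =>
        have : i g * a⁻¹ * (i g)⁻¹ = (i g * a * (i g)⁻¹)⁻¹ := by group
        rw [this]; exact N0.inv_mem ha
    constructor
    intro n hn q
    have hq : q ∈ Subgroup.closure (Set.range i ∪ {z | ∃ a b r, a ≠ b ∧ z = x a b r}) := by
      rw [hE.gen]; trivial
    have key : (∀ n ∈ N0, q * n * q⁻¹ ∈ N0) ∧ ∀ n ∈ N0, q⁻¹ * n * q ∈ N0 := by
      clear hn n
      induction hq using Subgroup.closure_induction with
      | mem q hq =>
        rcases hq with ⟨g, rfl⟩ | hq
        · refine ⟨hconj g, fun n hn => ?_⟩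
          have := hconj g⁻¹ n hn
          rwa [map_inv, inv_inv] at this
        · have hq' : q ∈ N0 := Subgroup.subset_closure hq
          exact ⟨fun n hn => N0.mul_mem (N0.mul_mem hq' hn) (N0.inv_mem hq'),
            fun n hn => N0.mul_mem (N0.mul_mem (N0.inv_mem hq') hn) hq'⟩
      | one => simp
      | mul a b _ _ ha hb =>
        refine ⟨fun n hn => ?_, fun n hn => ?_⟩
        · have := ha.1 _ (hb.1 n hn)
          have e : a * b * n * (a * b)⁻¹ = a * (b * n * b⁻¹) * a⁻¹ := by group
          rw [e]; exact this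
        · have := hb.2 _ (ha.2 n hn)
          have e : (a * b)⁻¹ * n * (a * b) = b⁻¹ * (a⁻¹ * n * a) * b := by group
          rw [e]; exact this
      | inv a _ ha =>
        refine ⟨fun n hn => ?_, fun n hn => ?_⟩
        · rw [inv_inv]; exact ha.2 n hn
        · rw [inv_inv]; exact ha.1 n hn
    exact key.1 n hn
  have hN0s : IsSimpleGroup N0 := by
    have hSU : IsSimpleGroup (SU R I) := su_simple (hK2 R I hsw)
    obtain ⟨σ, hσ⟩ := exists_lift x hE.st
    have hrange : σ.range = N0 := by
      apply le_antisymm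
      · rw [MonoidHom.range_eq_map, ← closure_xs R I, MonoidHom.map_closure, Subgroup.closure_le]
        rintro _ ⟨_, ⟨a, b, r, hab, rfl⟩, rfl⟩
        rw [hσ a b r hab]
        exact Subgroup.subset_closure ⟨a, b, r, hab, rfl⟩
      · rw [Subgroup.closure_le]
        rintro _ ⟨a, b, r, hab, rfl⟩
        exact ⟨xs a b r, hσ a b r hab⟩
    rw [← hrange]
    have hnt : Nontrivial σ.range := by
      obtain ⟨s⟩ : Nonempty S := inferInstance
      have hab : (.inl s : I) ≠ .inr 0 := by simp
      refine ⟨⟨σ (xs (.inl s) (.inr 0) 1), _, rfl⟩, 1, fun h => ?_⟩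
      have h1 : σ (xs (.inl s) (.inr 0) 1) = 1 := congrArg Subtype.val h
      rw [hσ _ _ _ hab] at h1
      have h2 : (el (.inl s) (.inr 0) (1 : R) : Equiv.Perm (I →₀ V)) = 1 := by
        rw [← hπx _ _ _ hab, h1, map_one]
      have h3 := congrArg (fun p : Equiv.Perm (I →₀ V) =>
        (p (Finsupp.single (.inr 0) v0)) (.inl s)) h2
      simp only [el_apply hab, Equiv.Perm.one_apply] at h3
      rw [Finsupp.add_apply, Finsupp.single_eq_same, Finsupp.single_eq_same, one_smul,
        Finsupp.single_eq_of_ne hab, zero_add] at h3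
      exact hgood.v0ne h3
    exact IsSimpleGroup.isSimpleGroup_of_surjective σ.rangeRestrict σ.rangeRestrict_surjective
  -- the embedding
  let φ : H →* Q := (MonoidHom.ofInjective hinj).symm.toMonoidHom.comp
    ((((dgH R V I o).comp θ)).codRestrict π.range (fun h => hsub (hK1 R V I hsw o (θ h))))
  have hφ : Function.Injective φ := by
    apply (MonoidHom.ofInjective hinj).symm.injective.comp
    intro a b hab
    exact hθ (dgH_inj R V I o hgood.faithful (congrArg Subtype.val hab))
  have hφN : ∀ h, φ h ∈ N0 := by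
    intro h
    have h1 : π (φ h) = dgH R V I o (θ h) := by
      have h2 := (MonoidHom.ofInjective hinj).apply_symm_apply
        ((((dgH R V I o).comp θ)).codRestrict π.range (fun h => hsub (hK1 R V I hsw o (θ h))) h)
      exact congrArg Subtype.val h2
    have h3 : dgH R V I o (θ h) ∈ N0.map π := hsubN (hK1 R V I hsw o (θ h))
    rw [← h1] at h3
    obtain ⟨n, hn, hnn⟩ := h3
    rw [← hinj hnn]
    exact hn
  -- zero
  have h0 : ∀ q : Q, π q 0 = 0 := by
    intro q
    have hq : q ∈ Subgroup.closure (Set.range i ∪ {z | ∃ a b r, a ≠ b ∧ z = x a b r}) := by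
      rw [hE.gen]; trivial
    induction hq using Subgroup.closure_induction with
    | mem q hq =>
      rcases hq with ⟨g, rfl⟩ | ⟨a, b, r, hab, rfl⟩
      · rw [hπi]
        exact map_zero (Finsupp.domCongr (M := V)
          (Equiv.sumCongr (MulAction.toPerm g) (Equiv.refl (Fin 4))))
      · rw [hπx a b r hab, el_apply hab]; simp
    | one => simp
    | mul a b _ _ ha hb => rw [map_mul, Equiv.Perm.mul_apply, hb, ha]
    | inv a _ ha => rw [map_inv, Equiv.Perm.inv_eq_iff_eq, ha]
  have h0' : ∀ (q : Q) (w : I →₀ V), π q w ≠ 0 ↔ w ≠ 0 := by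
    intro q w
    rw [not_iff_not]
    constructor
    · intro h
      exact (π q).injective (h.trans (h0 q).symm)
    · rintro rfl
      exact h0 q
  let X := {w : I →₀ V // w ≠ 0}
  have hne : ∀ a : I, (Finsupp.single a v0 : I →₀ V) ≠ 0 := fun a => by
    rw [Ne, Finsupp.single_eq_zero]; exact hgood.v0ne
  have : Infinite X := by
    apply Infinite.of_injective (fun s : S => (⟨Finsupp.single (.inl s) v0, hne _⟩ : X))
    intro s t hst
    have := congrArg Subtype.val hst
    have := (Finsupp.single_left_inj hgood.v0ne).1 this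
    exact Sum.inl_injective this
  let ρ : Q →* Equiv.Perm X :=
    { toFun := fun q => (π q).subtypePerm (h0' q)
      map_one' := by
        apply Equiv.ext; intro w; apply Subtype.ext
        simp [Equiv.Perm.subtypePerm_apply]
      map_mul' := fun q q' => by
        apply Equiv.ext; intro w; apply Subtype.ext
        simp [Equiv.Perm.subtypePerm_apply] }
  have hρv : ∀ q (w : X), ((ρ q w : X) : I →₀ V) = π q w := fun q w => rfl
  have hρ : Function.Injective ρ := by
    intro q q' h
    apply hinj
    apply Equiv.ext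
    intro w
    by_cases hw : w = 0
    · rw [hw, h0, h0]
    · exact congrArg Subtype.val (congrArg (fun g : Equiv.Perm X => g ⟨w, hw⟩) h)
  refine strong_of H Q X φ hφ N0 hN0 hN0s hφN ρ hρ ?_ ?_
  · intro w₁ w₂ u₁ u₂ hw hu
    obtain ⟨g, hg, h1, h2⟩ := hTR R V I v0 hgood w₁ w₂ u₁ u₂ w₁.2 w₂.2
      (fun h => hw (Subtype.ext h)) u₁.2 u₂.2 (fun h => hu (Subtype.ext h))
    obtain ⟨q, hq, rfl⟩ := hsubN hg
    exact ⟨q, hq, Subtype.ext h1, Subtype.ext h2⟩
  · refine ⟨⟨Finsupp.single o v0, hne o⟩, ?_⟩
    have e : ((MulAction.stabilizer (Equiv.Perm X) (⟨Finsupp.single o v0, hne o⟩ : X)).comap ρ) =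
        Subgroup.closure (Set.range i ∪ {z | ∃ (p q : S ⊕ Fin 4) (r : R), p ≠ q ∧
          (q ≠ .inr 0 ∨ r • v0 = 0) ∧ z = x p q r}) := by
      set P := Subgroup.closure (Set.range i ∪ {z | ∃ (p q : S ⊕ Fin 4) (r : R), p ≠ q ∧
          (q ≠ .inr 0 ∨ r • v0 = 0) ∧ z = x p q r}) with hP
      have hπi' : ∀ g, π (i g) (Finsupp.single o v0) = Finsupp.single o v0 := by
        intro g
        rw [hπi]
        show Finsupp.equivMapDomain _ (Finsupp.single o v0) = _
        rw [Finsupp.equivMapDomain_single]
        rfl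
      have hmem : ∀ q : Q, q ∈ ((MulAction.stabilizer (Equiv.Perm X)
          (⟨Finsupp.single o v0, hne o⟩ : X)).comap ρ) ↔
          π q (Finsupp.single o v0) = Finsupp.single o v0 := by
        intro q
        constructor
        · intro h
          exact congrArg Subtype.val h
        · intro h
          exact Subtype.ext h
      ext q
      rw [hmem]
      constructor
      · intro hq
        -- write q = n * i g
        let N : Subgroup Q := Subgroup.closure {z | ∃ a b r, a ≠ b ∧ z = x a b r}
        have hdec : ∃ n ∈ N, ∃ g, q = n * i g := by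
          have hconj : ∀ g, ∀ n ∈ N, i g * n * (i g)⁻¹ ∈ N := by
            intro g n hn
            induction hn using Subgroup.closure_induction with
            | mem n hn =>
              obtain ⟨a, b, r, hab, rfl⟩ := hn
              rw [hE.eqv g a b r hab]
              apply Subgroup.subset_closure
              refine ⟨_, _, _, ?_, rfl⟩
              intro h
              apply hab
              rcases a with a | a <;> rcases b with b | b
              · have : g • a = g • b := Sum.inl_injective h
                rw [smul_left_cancel g this]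
              · exact absurd h (by simp [mv])
              · exact absurd h (by simp [mv])
              · have : a = b := Sum.inr_injective h
                rw [this]
            | one => simp
            | mul a b _ _ ha hb =>
              have : i g * (a * b) * (i g)⁻¹ = (i g * a * (i g)⁻¹) * (i g * b * (i g)⁻¹) := by group
              rw [this]; exact N.mul_mem ha hb
            | inv a _ ha =>
              have : i g * a⁻¹ * (i g)⁻¹ = (i g * a * (i g)⁻¹)⁻¹ := by group
              rw [this]; exact N.inv_mem ha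
          have hq' : q ∈ Subgroup.closure (Set.range i ∪ {z | ∃ a b r, a ≠ b ∧ z = x a b r}) := by
            rw [hE.gen]; trivial
          clear hq
          induction hq' using Subgroup.closure_induction with
          | mem q hq =>
            rcases hq with ⟨g, rfl⟩ | hq
            · exact ⟨1, N.one_mem, g, by simp⟩
            · exact ⟨q, Subgroup.subset_closure hq, 1, by simp⟩
          | one => exact ⟨1, N.one_mem, 1, by simp⟩
          | mul a b _ _ ha hb =>
            obtain ⟨n, hn, g, rfl⟩ := ha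
            obtain ⟨n', hn', g', rfl⟩ := hb
            refine ⟨n * (i g * n' * (i g)⁻¹), N.mul_mem hn (hconj g n' hn'), g * g', ?_⟩
            rw [map_mul]; group
          | inv a _ ha =>
            obtain ⟨n, hn, g, rfl⟩ := ha
            refine ⟨i g⁻¹ * n⁻¹ * (i g⁻¹)⁻¹, hconj _ _ (N.inv_mem hn), g⁻¹, ?_⟩
            rw [inv_mul_cancel_right, mul_inv_rev, map_inv]
        obtain ⟨n, hn, g, rfl⟩ := hdec
        have hn' : π n (Finsupp.single o v0) = Finsupp.single o v0 := by
          rw [map_mul, Equiv.Perm.mul_apply, hπi'] at hq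
          exact hq
        have hnE : π n ∈ EG R V I := by
          have : N ≤ (EG R V I).comap π := by
            rw [Subgroup.closure_le]
            rintro _ ⟨a, b, r, hab, rfl⟩
            show π _ ∈ EG R V I
            rw [hπx a b r hab]
            exact Subgroup.subset_closure ⟨a, b, r, hab, rfl⟩
          exact this hn
        have h1 := hSTAB R V I v0 hgood o (π n) hnE hn'
        have h2 : PS R V I v0 o ≤ P.map π := by
          rw [PS, Subgroup.closure_le]
          rintro _ ⟨p, q, r, hpq, hr, rfl⟩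
          exact ⟨x p q r, Subgroup.subset_closure (Or.inr ⟨p, q, r, hpq, hr, rfl⟩),
            hπx p q r hpq⟩
        obtain ⟨n', hn'', he⟩ := h2 h1
        rw [← hinj he]
        exact P.mul_mem hn'' (Subgroup.subset_closure (Or.inl ⟨g, rfl⟩))
      · intro hq
        induction hq using Subgroup.closure_induction with
        | mem q hq =>
          rcases hq with ⟨g, rfl⟩ | ⟨p, q, r, hpq, hr, rfl⟩
          · exact hπi' g
          · rw [hπx p q r hpq, el_apply hpq]
            by_cases hqo : q = .inr 0
            · subst hqo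
              have hr' : r • v0 = 0 := by
                rcases hr with h | h
                · exact absurd rfl h
                · exact h
              show _ + Finsupp.single p (r • (Finsupp.single o v0 : I →₀ V) o) = _
              rw [Finsupp.single_eq_same, hr']; simp
            · have : (Finsupp.single o v0 : I →₀ V) q = 0 := by
                exact Finsupp.single_eq_of_ne (fun h => hqo h)
              rw [this]; simp
        | one => simp
        | mul a b _ _ ha hb => rw [map_mul, Equiv.Perm.mul_apply, hb, ha]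
        | inv a _ ha => rw [map_inv, Equiv.Perm.inv_eq_iff_eq, ha]
    rw [e]
    exact hFGS Λ S R V Q i x v0 hA hfp hE hgood 0

/-- finitely generated groups with computable word problem embed strongly -/
theorem strongly (n : ℕ) (R : Set (FreeGroup (Fin n)))
    (hwp : ComputablePred (fun w : List (Fin n × Bool) =>
      PresentedGroup.mk R (FreeGroup.mk w) = 1)) : EmbedsStrongly (PresentedGroup R) := by
  obtain ⟨A, V, _, _, _, _, v0, h1, h2, h3, h4, θ, hθ⟩ := ring_set
    Y88.BH.t_FPO Pool.Agent.Y151.BH.Bim.t_BIM Pool.Agent.Y547.LQ.t_J1a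
    Pool.Agent.Y547.LQ.t_J1b Y208.LQ.t_SIMP' Pool.Agent.Y839.LQ.t_TFP Pool.Agent.Y968.LQ.t_CEN
    n R hwp
  exact core_strong t_FPQ' t_TYA' Pool.Agent.Y665.BH.t_K1 Pool.Agent.Y891.BH.t_TR
    (Pool.Agent.Y469.BH.t_STAB Pool.Agent.Y891.BH.t_TV) Pool.Agent.Y537.BH.t_ACT
    Pool.Agent.Y151.BH.Fgs.t_FGS (Pool.Agent.Y781.BH.t_INJ t_K2') t_K2' _ A V v0 h1 h2 h3 h4 θ hθ

end Pool.Agent.H318.WP
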